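import Pool.Agent.KS6_55.Aff.A6

/-!
# Affine spaces of prime order with intersection sizes `1 mod s`

Full answer (the statement is true, already for `s ≥ 8`).

Let `U` be a line of the second space, a set of `p` points. After a generic projection to the plane,
`U ⊆ AG(2, p)`, and every line meets `U` in `0` or `1 mod s` points. At most `p (p - 1) / (s + 1)`
lines `x + a y = b` miss `U`. Let `R = ∏ (X + a Y - b)` over the points `(a, b)` of `U`. The functions
on the missed lines given by polynomials of degree at most `m`, `p + 2 m < 2 (p - 1)`, form an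
isotropic space for the form with diagonal entries the nonzero values of `R`. So if
`(m + 1) (m + 2)` exceeds the number of missed lines there is a polynomial `G ≠ 0` of degree at most
`m` with `R G = 0` on the whole dual plane, `R G = (X ^ p - X) A + (Y ^ p - Y) B`. All `p` lines
`X + a Y = b` are invariant for the vector field `(B, -A)`, whose extactic polynomial has degree
`3 m - 1 < p` for `m = p / 3`, so it vanishes. This is a Burgers equation for `B / A`, its solutions
of small degree are the pencils of lines, and so at least `p - m` points of `U` are on one line.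
-/

namespace Pool.Agent.Results.MP_66067f_co.AffineEqual

open Pool.Agent.KS6_55.Aff

/-- The subspaces (flats) of `AG(d, p)`: the cosets `v + W` of the linear subspaces `W` of
`F_p ^ d`, of any dimension. -/
def IsFlat {d p : ℕ} (S : Set (Fin d → ZMod p)) : Prop :=
  ∃ (v : Fin d → ZMod p) (W : Submodule (ZMod p) (Fin d → ZMod p)), S = {x | x - v ∈ W}

section

variable {d p : ℕ} [Fact p.Prime]

/-- The line through `a` and `b`. -/
def Ln (a b : Fin d → ZMod p) : Set (Fin d → ZMod p) :=
  {x | x - a ∈ Submodule.span (ZMod p) {b - a}}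

theorem isFlat_Ln (a b : Fin d → ZMod p) : IsFlat (Ln a b) := ⟨a, _, rfl⟩

theorem mem_Ln_iff {a b x : Fin d → ZMod p} : x ∈ Ln a b ↔ ∃ t : ZMod p, a + t • (b - a) = x := by
  change x - a ∈ Submodule.span (ZMod p) {b - a} ↔ _
  rw [Submodule.mem_span_singleton]
  constructor
  · rintro ⟨t, ht⟩
    exact ⟨t, by rw [ht]; abel⟩
  · rintro ⟨t, ht⟩
    exact ⟨t, by rw [← ht]; abel⟩

theorem left_mem_Ln (a b : Fin d → ZMod p) : a ∈ Ln a b := mem_Ln_iff.2 ⟨0, by simp⟩

theorem right_mem_Ln (a b : Fin d → ZMod p) : b ∈ Ln a b := mem_Ln_iff.2 ⟨1, by simp⟩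

theorem ncard_Ln {a b : Fin d → ZMod p} (h : b ≠ a) : (Ln a b).ncard = p := by
  have h1 : Ln a b = Set.range (fun t : ZMod p => a + t • (b - a)) := by
    ext x
    rw [mem_Ln_iff]
    rfl
  rw [h1, Set.ncard_range_of_injective, Nat.card_zmod]
  intro t t' ht
  have h2 : (t - t') • (b - a) = 0 := by
    rw [sub_smul, sub_eq_zero]
    exact add_left_cancel ht
  rcases smul_eq_zero.1 h2 with h3 | h3
  · exact sub_eq_zero.1 h3
  · exact absurd (sub_eq_zero.1 h3) h

/-- A flat contains the lines through its points. -/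
theorem Ln_subset {S : Set (Fin d → ZMod p)} (hS : IsFlat S) {a b : Fin d → ZMod p}
    (ha : a ∈ S) (hb : b ∈ S) : Ln a b ⊆ S := by
  obtain ⟨v, W, rfl⟩ := hS
  intro x hx
  obtain ⟨t, rfl⟩ := mem_Ln_iff.1 hx
  change a - v ∈ W at ha
  change b - v ∈ W at hb
  change a + t • (b - a) - v ∈ W
  have : a + t • (b - a) - v = (a - v) + t • ((b - v) - (a - v)) := by
    rw [sub_sub_sub_cancel_right]; abel
  rw [this]
  exact W.add_mem ha (W.smul_mem t (W.sub_mem hb ha))

/-- A nonempty set that contains the lines through its points is a flat. -/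
theorem isFlat_of_Ln (h2 : (2 : ZMod p) ≠ 0) {S : Set (Fin d → ZMod p)} (hne : S.Nonempty)
    (h : ∀ a ∈ S, ∀ b ∈ S, Ln a b ⊆ S) : IsFlat S := by
  obtain ⟨v, hv⟩ := hne
  have hsm : ∀ x, v + x ∈ S → ∀ t : ZMod p, v + t • x ∈ S := by
    intro x hx t
    apply h v hv _ hx
    rw [mem_Ln_iff]
    exact ⟨t, by rw [add_sub_cancel_left]⟩
  have hadd : ∀ x y, v + x ∈ S → v + y ∈ S → v + (x + y) ∈ S := by
    intro x y hx hy
    have h1 := hsm x hx 2
    have h3 := hsm y hy 2
    apply h _ h1 _ h3
    rw [mem_Ln_iff]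
    refine ⟨2⁻¹, ?_⟩
    have h4 : v + (2 : ZMod p) • y - (v + (2 : ZMod p) • x) = (2 : ZMod p) • (y - x) := by
      rw [add_sub_add_left_eq_sub, smul_sub]
    rw [h4, smul_smul, inv_mul_cancel₀ h2, one_smul, two_smul]
    abel
  let W : Submodule (ZMod p) (Fin d → ZMod p) :=
    { carrier := {x | v + x ∈ S}
      add_mem' := fun {x y} hx hy => hadd x y hx hy
      zero_mem' := by
        change v + 0 ∈ S
        rwa [add_zero]
      smul_mem' := fun t x hx => hsm x hx t }
  refine ⟨v, W, ?_⟩
  ext x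
  change x ∈ S ↔ v + (x - v) ∈ S
  rw [add_sub_cancel]

end

/-- **Theorem.** Let `s ≥ 8`, let `p` be a prime with `p ≡ 1 mod s` and let `g` be a permutation of
the points of `AG(d, p)` such that every subspace `X` and every image `g '' Y` of a subspace are
disjoint or meet in `1 mod s` points. Then `AG(d, p)` and its image under `g` have the same
subspaces. -/
theorem result (s : ℕ) (hs : 8 ≤ s) (p : ℕ) [Fact p.Prime] (hp : p ≡ 1 [MOD s]) (d : ℕ)
    (g : Equiv.Perm (Fin d → ZMod p))
    (h : ∀ X Y : Set (Fin d → ZMod p), IsFlat X → IsFlat Y →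
      X ∩ g '' Y = ∅ ∨ (X ∩ g '' Y).ncard ≡ 1 [MOD s]) :
    {S : Set (Fin d → ZMod p) | ∃ Y, IsFlat Y ∧ S = g '' Y} = {S | IsFlat S} := by
  classical
  have hp2 : 2 ≤ p := (Fact.out : p.Prime).two_le
  have hps : s + 1 ≤ p := by
    have h3 : s ∣ p - 1 := (Nat.modEq_iff_dvd' (by omega)).1 hp.symm
    have := Nat.le_of_dvd (by omega) h3
    omega
  have h20 : (2 : ZMod p) ≠ 0 := by
    intro h0
    have h1 : ((2 : ℕ) : ZMod p) = 0 := by exact_mod_cast h0
    rw [ZMod.natCast_eq_zero_iff] at h1
    have := Nat.le_of_dvd (by norm_num) h1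
    omega
  -- the image of a line is a line
  have key : ∀ a b : Fin d → ZMod p, b ≠ a → g '' Ln a b = Ln (g a) (g b) := by
    intro a b hab
    have hfin : (g '' Ln a b).Finite := Set.toFinite _
    obtain ⟨U, hU⟩ : ∃ U : Finset (Fin d → ZMod p), (U : Set (Fin d → ZMod p)) = g '' Ln a b :=
      ⟨hfin.toFinset, hfin.coe_toFinset⟩
    have hUc : U.card = p := by
      rw [← Set.ncard_coe_finset, hU, Set.ncard_image_of_injective _ g.injective, ncard_Ln hab]
    have hga : g b ≠ g a := fun h0 => hab (g.injective h0)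
    have hcol := collinear s hs hp U hUc (by
      intro v W
      rcases h {x | x - v ∈ W} (Ln a b) ⟨v, W, rfl⟩ (isFlat_Ln a b) with h1 | h1
      · left
        rw [hU, Set.inter_comm, h1, Set.ncard_empty]
      · right
        rw [hU, Set.inter_comm]
        exact h1) (g a) (g b)
    have hmem : ∀ x, x ∈ U ↔ x ∈ g '' Ln a b := fun x => by rw [← hU, Finset.mem_coe]
    have ha' : g a ∈ U := (hmem _).2 ⟨a, left_mem_Ln a b, rfl⟩
    have hb' : g b ∈ U := (hmem _).2 ⟨b, right_mem_Ln a b, rfl⟩
    apply Set.eq_of_subset_of_ncard_le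
    · intro x hx
      exact hcol x ha' hb' ((hmem x).2 hx) hga
    · rw [ncard_Ln hga, Set.ncard_image_of_injective _ g.injective, ncard_Ln hab]
    · exact Set.toFinite _
  have key' : ∀ a b : Fin d → ZMod p, Ln (g a) (g b) ⊆ g '' Ln a b := by
    intro a b
    by_cases hab : b = a
    · subst hab
      intro x hx
      obtain ⟨t, rfl⟩ := mem_Ln_iff.1 hx
      rw [sub_self, smul_zero, add_zero]
      exact ⟨b, left_mem_Ln b b, rfl⟩
    · rw [key a b hab]
  have key'' : ∀ a b : Fin d → ZMod p, g '' Ln a b ⊆ Ln (g a) (g b) := by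
    intro a b
    by_cases hab : b = a
    · subst hab
      rintro _ ⟨x, hx, rfl⟩
      obtain ⟨t, rfl⟩ := mem_Ln_iff.1 hx
      rw [sub_self, smul_zero, add_zero]
      exact left_mem_Ln _ _
    · rw [key a b hab]
  ext S
  constructor
  · rintro ⟨Y, hY, rfl⟩
    have hYne : Y.Nonempty := by
      obtain ⟨v, W, rfl⟩ := hY
      exact ⟨v, by change v - v ∈ W; rw [sub_self]; exact W.zero_mem⟩
    apply isFlat_of_Ln h20 (hYne.image g)
    rintro _ ⟨a, ha, rfl⟩ _ ⟨b, hb, rfl⟩
    exact (key' a b).trans (Set.image_mono (Ln_subset hY ha hb))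
  · intro hS
    change IsFlat S at hS
    have hSne : S.Nonempty := by
      obtain ⟨v, W, rfl⟩ := hS
      exact ⟨v, by change v - v ∈ W; rw [sub_self]; exact W.zero_mem⟩
    refine ⟨g ⁻¹' S, ?_, ?_⟩
    · apply isFlat_of_Ln h20 (hSne.preimage g.surjective)
      intro a ha b hb
      rw [← Set.image_subset_iff]
      exact (key'' a b).trans (Ln_subset hS ha hb)
    · rw [Set.image_preimage_eq _ g.surjective]

end Pool.Agent.Results.MP_66067f_co.AffineEqual
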